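import Pool.Agent.U623.TW.Mean

set_option autoImplicit false

/-!
# The inequality for almost all additive twists
-/

open Finset MeasureTheory

namespace Pool.Agent.U623.TW

theorem hs_le_log (M : ℕ) : hs (M : ℤ) ≤ 2 * (1 + Real.log M) := by
  classical
  have hR : ∑ n ∈ range (M + 1), ((n : ℝ))⁻¹ = ((harmonic M : ℚ) : ℝ) := by
    rw [sum_range_succ', harmonic]
    push_cast
    simp
  have h1 : ∑ k ∈ (Icc (-(M : ℤ)) M).filter (fun k => 0 < k), |(k : ℝ)|⁻¹ ≤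
      ∑ n ∈ range (M + 1), ((n : ℝ))⁻¹ := by
    refine sum_le_inj _ _ (fun k : ℤ => k.natAbs) _ _ ?_ ?_ ?_ (fun _ _ => by positivity)
    · intro a ha b hb hab
      simp only [coe_filter, Set.mem_ofPred_eq, mem_Icc] at ha hb
      simp only at hab
      omega
    · intro a ha
      rw [mem_filter, mem_Icc] at ha
      rw [mem_range]
      omega
    · intro a ha
      rw [Nat.cast_natAbs, Int.cast_abs]
  have h2 : ∑ k ∈ (Icc (-(M : ℤ)) M).filter (fun k => ¬ 0 < k), |(k : ℝ)|⁻¹ ≤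
      ∑ n ∈ range (M + 1), ((n : ℝ))⁻¹ := by
    refine sum_le_inj _ _ (fun k : ℤ => k.natAbs) _ _ ?_ ?_ ?_ (fun _ _ => by positivity)
    · intro a ha b hb hab
      simp only [coe_filter, Set.mem_ofPred_eq, mem_Icc] at ha hb
      simp only at hab
      omega
    · intro a ha
      rw [mem_filter, mem_Icc] at ha
      rw [mem_range]
      omega
    · intro a ha
      rw [Nat.cast_natAbs, Int.cast_abs]
  have h3 := harmonic_le_one_add_log M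
  unfold hs
  rw [← sum_filter_add_sum_filter_not _ (fun k : ℤ => 0 < k)]
  linarith [h1, h2, hR, h3]

theorem hs_le (N : ℕ) (hN : 1 ≤ N) (η : ℝ) (hη : 0 < η) :
    hs (5 * (N : ℤ) ^ 2) ≤ (6 + 4 / η) * (N : ℝ) ^ η := by
  have h1 := hs_le_log (5 * N ^ 2)
  have hN0 : (0 : ℝ) < N := by exact_mod_cast hN
  have hN1 : (1 : ℝ) ≤ N := by exact_mod_cast hN
  push_cast at h1
  have h5 : Real.log 5 ≤ 2 := by
    have e : (5 : ℝ) ≤ Real.exp 2 := by
      have := Real.exp_one_gt_d9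
      have e2 : Real.exp 2 = Real.exp 1 * Real.exp 1 := by rw [← Real.exp_add]; norm_num
      rw [e2]; nlinarith
    calc Real.log 5 ≤ Real.log (Real.exp 2) := Real.log_le_log (by norm_num) e
      _ = 2 := Real.log_exp 2
  have hlog : Real.log (5 * (N : ℝ) ^ 2) ≤ 2 + 2 * Real.log N := by
    rw [Real.log_mul (by norm_num) (by positivity), Real.log_pow]
    push_cast
    linarith
  have hl : Real.log N ≤ (N : ℝ) ^ η / η := Real.log_le_rpow_div hN0.le hη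
  have hp : (1 : ℝ) ≤ (N : ℝ) ^ η := Real.one_le_rpow hN1 hη.le
  calc hs (5 * (N : ℤ) ^ 2) ≤ 2 * (1 + Real.log (5 * (N : ℝ) ^ 2)) := h1
    _ ≤ 6 + 4 * Real.log N := by linarith
    _ ≤ 6 * (N : ℝ) ^ η + 4 * ((N : ℝ) ^ η / η) := by linarith
    _ = _ := by ring

theorem fourth' (N T : ℕ) (hN : 1 ≤ N) (hNT : N ≤ T) (hT : T ≤ 4 * N ^ 2) (b : ℕ → ℂ)
    (hb : ∀ n, ‖b n‖ ≤ 1) (β0 δ η : ℝ) (hδ : (N : ℝ) / T ≤ δ) (hη : 0 < η) :
    ∫ β in β0..(β0 + δ), ∑ t ∈ Icc 1 T, ‖DT N b β t‖ ^ 4 ≤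
      167 * ((6 + 4 / η) * (N : ℝ) ^ η) ^ 3 * (δ * (N ^ 2 * T)) := by
  have hN1 : (1 : ℝ) ≤ N := by exact_mod_cast hN
  have hNTR : (N : ℝ) ≤ T := by exact_mod_cast hNT
  have hTR : (T : ℝ) ≤ 4 * N ^ 2 := by exact_mod_cast hT
  have hTpos : (0 : ℝ) < T := by linarith
  have hδ0 : 0 ≤ δ := le_trans (by positivity) hδ
  refine (fourth N T hN b hb β0 δ hδ0).trans ?_
  set H := hs (5 * (N : ℤ) ^ 2) with hH
  have hH1 : 1 ≤ H := hs_one_le (by
    have : (1 : ℤ) ≤ N := by exact_mod_cast hN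
    nlinarith)
  have hHle : H ≤ (6 + 4 / η) * (N : ℝ) ^ η := hs_le N hN η hη
  have hH3 : H ^ 3 ≤ ((6 + 4 / η) * (N : ℝ) ^ η) ^ 3 := pow_le_pow_left₀ (by linarith) hHle 3
  have hH23 : H ^ 2 ≤ H ^ 3 := pow_le_pow_right₀ hH1 (by norm_num)
  have hH13 : 1 ≤ H ^ 3 := one_le_pow₀ hH1
  have hpi : Real.pi < 3.15 := Real.pi_lt_d2
  have hK : 4 * Real.pi * (N : ℝ) ^ 2 ≤ 13 * N ^ 2 := by
    have : (0 : ℝ) ≤ (N : ℝ) ^ 2 := by positivity
    nlinarith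
  have hδT : (N : ℝ) ≤ δ * T := by rwa [div_le_iff₀ hTpos] at hδ
  set X := δ * ((N : ℝ) ^ 2 * T) with hX
  have hN3 : (N : ℝ) ^ 3 ≤ X := by
    calc (N : ℝ) ^ 3 = (N : ℝ) ^ 2 * N := by ring
      _ ≤ (N : ℝ) ^ 2 * (δ * T) := mul_le_mul_of_nonneg_left hδT (by positivity)
      _ = X := by rw [hX]; ring
  have hX0 : 0 ≤ X := le_trans (by positivity) hN3
  have a1 : δ * (2 * N * (6 * N * T)) ≤ 12 * X * H ^ 3 := by
    calc δ * (2 * N * (6 * N * T)) = 12 * X * 1 := by rw [hX]; ring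
      _ ≤ 12 * X * H ^ 3 := mul_le_mul_of_nonneg_left hH13 (by positivity)
  have a2 : δ * (2 * N * (4 * Real.pi * N ^ 2 * H ^ 2)) ≤ 26 * X * H ^ 3 := by
    calc δ * (2 * N * (4 * Real.pi * N ^ 2 * H ^ 2)) ≤ δ * (2 * N * (13 * N ^ 2 * H ^ 3)) := by
          gcongr
      _ = 26 * (δ * (N ^ 2 * N)) * H ^ 3 := by ring
      _ ≤ 26 * (δ * (N ^ 2 * T)) * H ^ 3 := by gcongr
      _ = _ := by rw [hX]
  have a3 : 3 * N * T * H ^ 3 ≤ 12 * X * H ^ 3 := by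
    have : 3 * (N : ℝ) * T ≤ 12 * X := by
      calc 3 * (N : ℝ) * T ≤ 3 * N * (4 * N ^ 2) := by gcongr
        _ = 12 * N ^ 3 := by ring
        _ ≤ 12 * X := by linarith
    exact mul_le_mul_of_nonneg_right this (by positivity)
  have a4 : 9 * N * (4 * Real.pi * N ^ 2) * H ^ 3 ≤ 117 * X * H ^ 3 := by
    have : 9 * (N : ℝ) * (4 * Real.pi * N ^ 2) ≤ 117 * X := by
      calc 9 * (N : ℝ) * (4 * Real.pi * N ^ 2) ≤ 9 * (N : ℝ) * (13 * (N : ℝ) ^ 2) := by gcongr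
        _ = 117 * (N : ℝ) ^ 3 := by ring
        _ ≤ 117 * X := by linarith
    exact mul_le_mul_of_nonneg_right this (by positivity)
  have fin : 167 * X * H ^ 3 ≤ 167 * ((6 + 4 / η) * (N : ℝ) ^ η) ^ 3 * X := by
    calc 167 * X * H ^ 3 ≤ 167 * X * ((6 + 4 / η) * (N : ℝ) ^ η) ^ 3 :=
          mul_le_mul_of_nonneg_left hH3 (by positivity)
      _ = _ := by ring
  refine le_trans ?_ fin
  nlinarith [a1, a2, a3, a4]

theorem markov (f : ℝ → ℝ) (hf : Continuous f) (h0 : ∀ x, 0 ≤ f x) (a δ B l : ℝ) (hδ : 0 ≤ δ)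
    (hI : ∫ x in a..(a + δ), f x ≤ B) (hl : 0 < l) :
    volume {x | x ∈ Set.Icc a (a + δ) ∧ l < f x} ≤ ENNReal.ofReal (B / l) := by
  have hint : Integrable f (volume.restrict (Set.Icc a (a + δ))) :=
    hf.continuousOn.integrableOn_Icc
  have m := mul_meas_ge_le_integral_of_nonneg (μ := volume.restrict (Set.Icc a (a + δ)))
    (Filter.Eventually.of_forall h0) hint l
  rw [integral_Icc_eq_integral_Ioc, ← intervalIntegral.integral_of_le (by linarith)] at m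
  have hmeas : MeasurableSet {x | l ≤ f x} := (isClosed_le continuous_const hf).measurableSet
  have hfin : volume ({x | l ≤ f x} ∩ Set.Icc a (a + δ)) ≠ ⊤ :=
    ne_top_of_le_ne_top (by simp) (measure_mono Set.inter_subset_right)
  rw [Measure.real, Measure.restrict_apply hmeas] at m
  refine (measure_mono (?_ : _ ⊆ {x | l ≤ f x} ∩ Set.Icc a (a + δ))).trans ?_
  · rintro x ⟨h1, h2⟩
    exact ⟨h2.le, h1⟩
  · rw [← ENNReal.ofReal_toReal hfin]
    refine ENNReal.ofReal_le_ofReal ?_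
    rw [le_div_iff₀ hl]
    linarith

/-- from the fourth moment to all moments -/
theorem all_q (N T : ℕ) (hN : 1 ≤ N) (hT0 : 1 ≤ T) (hT : (T : ℝ) ≤ (N : ℝ) ^ 2) (f : ℕ → ℝ)
    (hf0 : ∀ t, 0 ≤ f t) (hf1 : ∀ t, f t ≤ 2 * N) (L : ℝ) (hL : 1 ≤ L)
    (h4 : ∑ t ∈ Icc 1 T, f t ^ 4 ≤ L * (N ^ 2 * T)) (q : ℝ) (hq : 0 < q) :
    ∑ t ∈ Icc 1 T, f t ^ q ≤ (if q ≤ 4 then L * (T * (N : ℝ) ^ (q / 2)) else
      2 ^ (q - 4) * (L * (N : ℝ) ^ q)) := by
  have hN0 : (0 : ℝ) < N := by exact_mod_cast hN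
  have hTR : (0 : ℝ) < T := by exact_mod_cast hT0
  split_ifs with h
  · -- Hölder
    have hol : ∑ t ∈ Icc 1 T, f t ^ q ≤ (∑ t ∈ Icc 1 T, (f t) ^ (4 : ℝ)) ^ (q / 4) *
        (T : ℝ) ^ (1 - q / 4) := by
      rcases eq_or_lt_of_le h with h4' | h4'
      · rw [h4']; norm_num
      have hpq : Real.HolderConjugate (4 / q) (1 - q / 4)⁻¹ := by
        rw [Real.holderConjugate_iff]
        refine ⟨by rw [lt_div_iff₀ hq]; linarith, ?_⟩
        rw [inv_inv, inv_div]; ring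
      have := Real.inner_le_Lp_mul_Lq_of_nonneg (Icc 1 T) (f := fun t => f t ^ q)
        (g := fun _ => (1 : ℝ)) hpq (fun t _ => Real.rpow_nonneg (hf0 t) _) (fun _ _ => zero_le_one)
      simp only [mul_one, Real.one_rpow, sum_const, Nat.card_Icc, nsmul_eq_mul,
        Nat.add_sub_cancel] at this
      refine this.trans (le_of_eq ?_)
      congr 1
      · rw [one_div, inv_div]
        congr 1
        refine sum_congr rfl fun t _ => ?_
        rw [← Real.rpow_mul (hf0 t)]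
        congr 1
        field_simp
      · rw [one_div, inv_inv]
    refine hol.trans ?_
    have h4r : ∑ t ∈ Icc 1 T, (f t) ^ (4 : ℝ) ≤ L * (N ^ 2 * T) := by
      refine le_trans (le_of_eq (sum_congr rfl fun t _ => ?_)) h4
      exact_mod_cast Real.rpow_natCast (f t) 4
    have h5 : (∑ t ∈ Icc 1 T, (f t) ^ (4 : ℝ)) ^ (q / 4) ≤ (L * (N ^ 2 * T)) ^ (q / 4) :=
      Real.rpow_le_rpow (sum_nonneg fun t _ => Real.rpow_nonneg (hf0 t) _) h4r (by positivity)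
    have h6 : (L * ((N : ℝ) ^ 2 * T)) ^ (q / 4) = L ^ (q / 4) * ((N : ℝ) ^ (q / 2) * T ^ (q / 4)) := by
      rw [Real.mul_rpow (by linarith) (by positivity), Real.mul_rpow (by positivity) hTR.le]
      congr 2
      rw [← Real.rpow_natCast, ← Real.rpow_mul hN0.le]
      congr 1
      push_cast
      ring
    have h7 : L ^ (q / 4) ≤ L := by
      calc L ^ (q / 4) ≤ L ^ (1 : ℝ) := Real.rpow_le_rpow_of_exponent_le hL (by linarith)
        _ = L := Real.rpow_one L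
    have h8 : (T : ℝ) ^ (q / 4) * (T : ℝ) ^ (1 - q / 4) = T := by
      rw [← Real.rpow_add hTR]
      have : q / 4 + (1 - q / 4) = 1 := by ring
      rw [this, Real.rpow_one]
    calc _ ≤ (L ^ (q / 4) * ((N : ℝ) ^ (q / 2) * T ^ (q / 4))) * (T : ℝ) ^ (1 - q / 4) := by
          rw [← h6]
          exact mul_le_mul_of_nonneg_right h5 (Real.rpow_nonneg hTR.le _)
      _ = L ^ (q / 4) * ((N : ℝ) ^ (q / 2) * (T ^ (q / 4) * (T : ℝ) ^ (1 - q / 4))) := by ring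
      _ = L ^ (q / 4) * ((N : ℝ) ^ (q / 2) * T) := by rw [h8]
      _ ≤ L * ((N : ℝ) ^ (q / 2) * T) := mul_le_mul_of_nonneg_right h7 (by positivity)
      _ = _ := by ring
  · push Not at h
    have e : ∀ t, f t ^ q ≤ (2 * (N : ℝ)) ^ (q - 4) * f t ^ 4 := by
      intro t
      rcases eq_or_lt_of_le (hf0 t) with h0 | h0
      · rw [← h0, Real.zero_rpow (by linarith)]
        positivity
      · have : f t ^ q = f t ^ (q - 4) * f t ^ 4 := by
          rw [← Real.rpow_natCast, ← Real.rpow_add h0]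
          congr 1
          push_cast
          ring
        rw [this]
        exact mul_le_mul_of_nonneg_right (Real.rpow_le_rpow (hf0 t) (hf1 t) (by linarith))
          (by positivity)
    calc ∑ t ∈ Icc 1 T, f t ^ q ≤ ∑ t ∈ Icc 1 T, (2 * (N : ℝ)) ^ (q - 4) * f t ^ 4 :=
          sum_le_sum fun t _ => e t
      _ = (2 * (N : ℝ)) ^ (q - 4) * ∑ t ∈ Icc 1 T, f t ^ 4 := by rw [mul_sum]
      _ ≤ (2 * (N : ℝ)) ^ (q - 4) * (L * (N ^ 2 * N ^ 2)) := by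
          refine mul_le_mul_of_nonneg_left (h4.trans ?_) (by positivity)
          gcongr
      _ = 2 ^ (q - 4) * (L * ((N : ℝ) ^ (q - 4) * N ^ 4)) := by
          rw [Real.mul_rpow (by norm_num) hN0.le]; ring
      _ = _ := by
          congr 2
          rw [← Real.rpow_natCast, ← Real.rpow_add hN0]
          congr 1
          push_cast
          ring

theorem DT_le (N : ℕ) (hN : 1 ≤ N) (b : ℕ → ℂ) (hb : ∀ n, ‖b n‖ ≤ 1) (β t : ℝ) :
    ‖DT N b β t‖ ≤ 2 * N := by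
  unfold DT
  refine (norm_sum_le _ _).trans ?_
  have : ∀ n ∈ Icc N (2 * N), ‖b n * Complex.exp (Complex.I * ((2 * Real.pi * β * n + t * Real.log n : ℝ) : ℂ))‖
      ≤ 1 := fun n _ => by
    rw [norm_mul, mul_comm Complex.I, Complex.norm_exp_ofReal_mul_I, mul_one]
    exact hb n
  refine (sum_le_sum this).trans ?_
  rw [sum_const, Nat.card_Icc, nsmul_eq_mul, mul_one]
  have : 2 * N + 1 - N = N + 1 := by omega
  rw [this]
  push_cast
  have hN1 : (1 : ℝ) ≤ N := by exact_mod_cast hN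
  linarith

theorem DT_cont (N : ℕ) (b : ℕ → ℂ) (t : ℝ) : Continuous fun β : ℝ => DT N b β t := by
  unfold DT
  fun_prop

/-- the constant -/
noncomputable def C0 (ε : ℝ) : ℝ := 334 * (6 + 24 / ε) ^ 3

theorem C0_ge (ε : ℝ) (hε : 0 < ε) : 1 ≤ C0 ε := by
  unfold C0
  have : (6 : ℝ) ≤ 6 + 24 / ε := by
    have : 0 < 24 / ε := by positivity
    linarith
  have h2 : (6 : ℝ) ^ 3 ≤ (6 + 24 / ε) ^ 3 := pow_le_pow_left₀ (by norm_num) this 3
  nlinarith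

/-- Markov's inequality for the fourth moment -/
theorem exceptional (N T : ℕ) (hN : 1 ≤ N) (hNT : N ≤ T) (hT : T ≤ 4 * N ^ 2) (b : ℕ → ℂ)
    (hb : ∀ n, ‖b n‖ ≤ 1) (β0 δ ε : ℝ) (hδ : (N : ℝ) / T ≤ δ) (hε : 0 < ε) :
    volume {β | β ∈ Set.Icc β0 (β0 + δ) ∧
      C0 ε / 2 * (N : ℝ) ^ ε * (N ^ 2 * T) < ∑ t ∈ Icc 1 T, ‖DT N b β t‖ ^ 4} ≤
      ENNReal.ofReal ((N : ℝ) ^ (-(ε / 2)) * δ) := by
  have hN0 : (0 : ℝ) < N := by exact_mod_cast hN
  have hNTR : (N : ℝ) ≤ T := by exact_mod_cast hNT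
  have hTpos : (0 : ℝ) < T := by linarith
  have hδ0 : 0 < δ := lt_of_lt_of_le (by positivity) hδ
  have h4 := fourth' N T hN hNT hT b hb β0 δ (ε / 6) hδ (by positivity)
  have hC := C0_ge ε hε
  have m := markov (fun β => ∑ t ∈ Icc 1 T, ‖DT N b β t‖ ^ 4)
    (continuous_finsetSum _ fun t _ => ((DT_cont N b t).norm.pow 4)) (fun β => by positivity)
    β0 δ _ (C0 ε / 2 * (N : ℝ) ^ ε * (N ^ 2 * T)) hδ0.le h4 (by positivity)
  refine m.trans (ENNReal.ofReal_le_ofReal ?_)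
  rw [div_le_iff₀ (by positivity)]
  have e1 : (6 + 4 / (ε / 6)) = 6 + 24 / ε := by field_simp; ring
  rw [e1, mul_pow]
  have e2 : ((N : ℝ) ^ (ε / 6)) ^ 3 = (N : ℝ) ^ (-(ε / 2)) * (N : ℝ) ^ ε := by
    rw [← Real.rpow_natCast, ← Real.rpow_mul hN0.le, ← Real.rpow_add hN0]
    congr 1
    push_cast
    ring
  rw [e2]
  refine le_of_eq ?_
  unfold C0
  ring

theorem count_dyadic (N : ℕ) (hN : 1 ≤ N) (ε : ℝ) (hε : 0 < ε) :
    ((Nat.log 2 (2 * N) + 1 : ℕ) : ℝ) ≤ (2 + 6 / ε) * (N : ℝ) ^ (ε / 4) := by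
  have hN0 : (0 : ℝ) < N := by exact_mod_cast hN
  have hN1 : (1 : ℝ) ≤ N := by exact_mod_cast hN
  have h1 : Nat.log 2 (2 * N) = Nat.log 2 N + 1 := by
    rw [mul_comm]; exact Nat.log_mul_base (by norm_num) (by omega)
  have h2 : (Nat.log 2 N : ℝ) * Real.log 2 ≤ Real.log N := by
    rw [← Real.log_pow]
    refine Real.log_le_log (by positivity) ?_
    exact_mod_cast Nat.pow_log_le_self 2 (by omega : N ≠ 0)
  have h3 : (0.6931471803 : ℝ) < Real.log 2 := Real.log_two_gt_d9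
  have h4 : (Nat.log 2 N : ℝ) ≤ 3 / 2 * Real.log N := by
    have : (0 : ℝ) ≤ Nat.log 2 N := by positivity
    nlinarith
  have hl : Real.log N ≤ (N : ℝ) ^ (ε / 4) / (ε / 4) := Real.log_le_rpow_div hN0.le (by positivity)
  have hp : (1 : ℝ) ≤ (N : ℝ) ^ (ε / 4) := Real.one_le_rpow hN1 (by positivity)
  rw [h1]
  push_cast
  have e : (N : ℝ) ^ (ε / 4) / (ε / 4) = 4 / ε * (N : ℝ) ^ (ε / 4) := by field_simp
  rw [e] at hl
  have e2 : (2 + 6 / ε) * (N : ℝ) ^ (ε / 4) = 2 * (N : ℝ) ^ (ε / 4) +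
      3 / 2 * (4 / ε * (N : ℝ) ^ (ε / 4)) := by ring
  rw [e2]
  linarith

/-- all lengths at once -/
theorem simult (N : ℕ) (hN : 1 ≤ N) (b : ℕ → ℂ) (hb : ∀ n, ‖b n‖ ≤ 1) (β0 δ ε : ℝ) (hδ : 0 < δ)
    (hε : 0 < ε) :
    volume {β | β ∈ Set.Icc β0 (β0 + δ) ∧ ¬ ∀ T : ℕ, N ≤ T → (N : ℝ) ≤ δ * T → (T : ℝ) ≤ N ^ 2 →
      ∑ t ∈ Icc 1 T, ‖DT N b β t‖ ^ 4 ≤ C0 ε * (N : ℝ) ^ ε * (N ^ 2 * T)} ≤
      ENNReal.ofReal ((2 + 6 / ε) * (N : ℝ) ^ (-(ε / 4)) * δ) := by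
  classical
  have hN0 : (0 : ℝ) < N := by exact_mod_cast hN
  have hC := C0_ge ε hε
  set J := (range (Nat.log 2 (2 * N) + 1)).filter (fun j => (N : ℝ) ≤ δ * ((2 ^ j * N : ℕ) : ℝ)) with hJ
  have hsub : {β | β ∈ Set.Icc β0 (β0 + δ) ∧ ¬ ∀ T : ℕ, N ≤ T → (N : ℝ) ≤ δ * T → (T : ℝ) ≤ N ^ 2 →
      ∑ t ∈ Icc 1 T, ‖DT N b β t‖ ^ 4 ≤ C0 ε * (N : ℝ) ^ ε * (N ^ 2 * T)} ⊆
      ⋃ j ∈ J, {β | β ∈ Set.Icc β0 (β0 + δ) ∧
      C0 ε / 2 * (N : ℝ) ^ ε * (N ^ 2 * ((2 ^ j * N : ℕ) : ℝ)) <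
        ∑ t ∈ Icc 1 (2 ^ j * N), ‖DT N b β t‖ ^ 4} := by
    rintro β ⟨hβ, hbad⟩
    push Not at hbad
    obtain ⟨T, h1, h2, h3, h4⟩ := hbad
    have hT2 : T ≤ N ^ 2 := by exact_mod_cast h3
    -- the smallest dyadic multiple above T
    have hex : ∃ j, T ≤ 2 ^ j * N := ⟨T, by
      calc T ≤ 2 ^ T := Nat.lt_two_pow_self.le
        _ ≤ 2 ^ T * N := Nat.le_mul_of_pos_right _ hN⟩
    set j := Nat.find hex with hj
    have hj1 : T ≤ 2 ^ j * N := Nat.find_spec hex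
    have hj2 : 2 ^ j * N ≤ 2 * T := by
      rcases Nat.eq_zero_or_pos j with h0 | h0
      · rw [h0]; omega
      · have := Nat.find_min hex (m := j - 1) (by omega)
        push Not at this
        have e : 2 ^ j = 2 * 2 ^ (j - 1) := by
          rw [← pow_succ', Nat.sub_add_cancel h0]
        rw [e]
        nlinarith
    have hj3 : 2 ^ j ≤ 2 * N := by
      have : 2 ^ j * N ≤ 2 * N * N := by nlinarith
      exact Nat.le_of_mul_le_mul_right this hN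
    have hjlog : j ≤ Nat.log 2 (2 * N) := Nat.le_log_of_pow_le (by norm_num) hj3
    have hj1R : (T : ℝ) ≤ ((2 ^ j * N : ℕ) : ℝ) := by exact_mod_cast hj1
    have hj2R : ((2 ^ j * N : ℕ) : ℝ) ≤ 2 * T := by exact_mod_cast hj2
    simp only [Set.mem_iUnion]
    refine ⟨j, ?_, hβ, ?_⟩
    · rw [hJ, mem_filter, mem_range]
      refine ⟨by omega, h2.trans ?_⟩
      exact mul_le_mul_of_nonneg_left hj1R hδ.le
    · calc C0 ε / 2 * (N : ℝ) ^ ε * (N ^ 2 * ((2 ^ j * N : ℕ) : ℝ)) ≤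
            C0 ε / 2 * (N : ℝ) ^ ε * (N ^ 2 * (2 * T)) := by gcongr
        _ = C0 ε * (N : ℝ) ^ ε * (N ^ 2 * T) := by ring
        _ < ∑ t ∈ Icc 1 T, ‖DT N b β t‖ ^ 4 := h4
        _ ≤ _ := by
          refine sum_le_sum_of_subset_of_nonneg (Icc_subset_Icc le_rfl hj1) fun _ _ _ => by positivity
  refine (measure_mono hsub).trans ((measure_biUnion_finset_le _ _).trans ?_)
  have hbound : ∀ j ∈ J, volume {β | β ∈ Set.Icc β0 (β0 + δ) ∧
      C0 ε / 2 * (N : ℝ) ^ ε * (N ^ 2 * ((2 ^ j * N : ℕ) : ℝ)) <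
        ∑ t ∈ Icc 1 (2 ^ j * N), ‖DT N b β t‖ ^ 4} ≤
      ENNReal.ofReal ((N : ℝ) ^ (-(ε / 2)) * δ) := by
    intro j hj
    rw [hJ, mem_filter, mem_range] at hj
    have h2j : 2 ^ j ≤ 2 * N := by
      calc 2 ^ j ≤ 2 ^ (Nat.log 2 (2 * N)) := Nat.pow_le_pow_right (by norm_num) (by omega)
        _ ≤ 2 * N := Nat.pow_log_le_self 2 (by omega)
    refine exceptional N (2 ^ j * N) hN (Nat.le_mul_of_pos_left _ (by positivity)) (by nlinarith) b hb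
      β0 δ ε ?_ hε
    have : (0 : ℝ) < ((2 ^ j * N : ℕ) : ℝ) := by positivity
    rw [div_le_iff₀ this]
    exact hj.2
  refine (sum_le_card_nsmul _ _ _ hbound).trans ?_
  rw [nsmul_eq_mul, ← ENNReal.ofReal_natCast, ← ENNReal.ofReal_mul (by positivity)]
  refine ENNReal.ofReal_le_ofReal ?_
  have hcard : (J.card : ℝ) ≤ (2 + 6 / ε) * (N : ℝ) ^ (ε / 4) := by
    refine le_trans ?_ (count_dyadic N hN ε hε)
    have : J.card ≤ Nat.log 2 (2 * N) + 1 := by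
      refine (card_filter_le _ _).trans ?_
      rw [card_range]
    exact_mod_cast this
  calc (J.card : ℝ) * ((N : ℝ) ^ (-(ε / 2)) * δ) ≤
        ((2 + 6 / ε) * (N : ℝ) ^ (ε / 4)) * ((N : ℝ) ^ (-(ε / 2)) * δ) :=
        mul_le_mul_of_nonneg_right hcard (by positivity)
    _ = (2 + 6 / ε) * ((N : ℝ) ^ (ε / 4) * (N : ℝ) ^ (-(ε / 2))) * δ := by ring
    _ = _ := by
      rw [← Real.rpow_add hN0]
      congr 3
      ring

end Pool.Agent.U623.TW
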