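import Mathlib

set_option autoImplicit false

/-!
# A divisor sum for near solutions of `a + b = c + d`, `a b = c d`
-/

open Finset

namespace Pool.Agent.U623.TW

/-- the symmetric harmonic sum -/
noncomputable def hs (M : ℤ) : ℝ := ∑ k ∈ Icc (-M) M, |(k : ℝ)|⁻¹

/-- the kernel in the variable `h` -/
noncomputable def F (T K : ℝ) (h : ℤ) : ℝ := if h = 0 then T else K * |(h : ℝ)|⁻¹

/-- the kernel in the variable `S` -/
noncomputable def w (δ : ℝ) (S : ℤ) : ℝ := if S = 0 then δ else |(S : ℝ)|⁻¹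

theorem F_nonneg {T K : ℝ} (hT : 0 ≤ T) (hK : 0 ≤ K) (h : ℤ) : 0 ≤ F T K h := by
  unfold F; split_ifs <;> positivity

theorem w_nonneg {δ : ℝ} (hδ : 0 ≤ δ) (S : ℤ) : 0 ≤ w δ S := by
  unfold w; split_ifs <;> positivity

theorem hs_nonneg (M : ℤ) : 0 ≤ hs M := sum_nonneg fun _ _ => by positivity

theorem hs_mono {M M' : ℤ} (h : M ≤ M') : hs M ≤ hs M' := by
  unfold hs
  refine sum_le_sum_of_subset_of_nonneg (fun k hk => ?_) fun _ _ _ => by positivity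
  rw [mem_Icc] at hk ⊢
  constructor <;> linarith [hk.1, hk.2]

theorem sum_le_inj {α β : Type*} [DecidableEq β] (s : Finset α) (t : Finset β) (e : α → β)
    (f : α → ℝ) (g : β → ℝ) (hinj : Set.InjOn e s) (hmap : ∀ a ∈ s, e a ∈ t)
    (hle : ∀ a ∈ s, f a ≤ g (e a)) (hg : ∀ b ∈ t, 0 ≤ g b) : ∑ a ∈ s, f a ≤ ∑ b ∈ t, g b := by
  calc ∑ a ∈ s, f a ≤ ∑ a ∈ s, g (e a) := sum_le_sum hle
    _ = ∑ b ∈ s.image e, g b := by rw [sum_image hinj]
    _ ≤ _ := by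
      refine sum_le_sum_of_subset_of_nonneg (fun b hb => ?_) fun b hb _ => hg b hb
      rw [mem_image] at hb
      obtain ⟨a, ha, rfl⟩ := hb
      exact hmap a ha

/-- harmonic sum over multiples -/
theorem mult_sum (g M : ℤ) (hg : 1 ≤ g) :
    ∑ h ∈ (Icc (-M) M).filter (fun h => g ∣ h), |(h : ℝ)|⁻¹ ≤ (g : ℝ)⁻¹ * hs M := by
  have hg0 : (0 : ℝ) < g := by exact_mod_cast (by omega : 0 < g)
  unfold hs
  rw [mul_sum]
  refine sum_le_inj _ _ (fun h => h / g) _ _ ?_ ?_ ?_ (fun _ _ => by positivity)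
  · intro a ha b hb hab
    simp only [coe_filter, Set.mem_ofPred_eq] at ha hb
    simp only at hab
    obtain ⟨a', rfl⟩ := ha.2
    obtain ⟨b', rfl⟩ := hb.2
    rw [Int.mul_ediv_cancel_left _ (by omega), Int.mul_ediv_cancel_left _ (by omega)] at hab
    rw [hab]
  · intro a ha
    rw [mem_filter, mem_Icc] at ha
    obtain ⟨⟨h1, h2⟩, a', rfl⟩ := ha
    rw [Int.mul_ediv_cancel_left _ (by omega), mem_Icc]
    constructor
    · by_contra hcon
      push Not at hcon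
      have : a' ≤ -1 ∨ 0 ≤ a' := by omega
      rcases this with h | h
      · nlinarith
      · have : g * a' ≤ M := h2
        have h3 : 0 ≤ g * a' := by positivity
        omega
    · by_contra hcon
      push Not at hcon
      have : 1 ≤ a' ∨ a' ≤ 0 := by omega
      rcases this with h | h
      · nlinarith
      · have h3 : g * a' ≤ 0 := by nlinarith
        omega
  · intro a ha
    rw [mem_filter, mem_Icc] at ha
    obtain ⟨_, a', rfl⟩ := ha
    rw [Int.mul_ediv_cancel_left _ (by omega)]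
    push_cast
    rw [abs_mul, mul_inv, abs_of_pos hg0]

/-- the number of solutions of `x y + S c = h` -/
theorem fiber_card (N x S h : ℤ) (hN : 1 ≤ N) (hx : x ≠ 0) (hxN : |x| ≤ N) :
    (((Icc N (2 * N) ×ˢ Icc (-N) N).filter fun p : ℤ × ℤ => x * p.2 + S * p.1 = h).card : ℝ) ≤
      3 * N * (Int.gcd x S : ℝ) * |(x : ℝ)|⁻¹ := by
  classical
  set g : ℤ := (Int.gcd x S : ℤ) with hg
  have hgpos : 0 < Int.gcd x S := Int.gcd_pos_of_ne_zero_left _ hx
  have hg0 : 0 < g := by rw [hg]; exact_mod_cast hgpos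
  obtain ⟨x1, hx1⟩ : g ∣ x := Int.gcd_dvd_left ..
  obtain ⟨S1, hS1⟩ : g ∣ S := Int.gcd_dvd_right ..
  have hcop : Int.gcd x1 S1 = 1 := by
    have h1 := Int.gcd_div_gcd_div_gcd hgpos
    have e1 : x / (Int.gcd x S : ℤ) = x1 := by
      rw [← hg]; conv_lhs => rw [hx1]
      exact Int.mul_ediv_cancel_left _ hg0.ne'
    have e2 : S / (Int.gcd x S : ℤ) = S1 := by
      rw [← hg]; conv_lhs => rw [hS1]
      exact Int.mul_ediv_cancel_left _ hg0.ne'
    rwa [e1, e2] at h1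
  have hx10 : x1 ≠ 0 := fun h0 => hx (by rw [hx1, h0, mul_zero])
  have hx1pos : 0 < |x1| := abs_pos.mpr hx10
  set P := (Icc N (2 * N) ×ˢ Icc (-N) N).filter fun p : ℤ × ℤ => x * p.2 + S * p.1 = h with hP
  have hxabs : |x| = g * |x1| := by rw [hx1, abs_mul, abs_of_pos hg0]
  have hNR : (0 : ℝ) < N := by exact_mod_cast (by omega : 0 < N)
  have hgR : (0 : ℝ) < (g : ℝ) := by exact_mod_cast hg0
  have hx1R : (0 : ℝ) < |(x1 : ℝ)| := by
    have : (0 : ℝ) < ((|x1| : ℤ) : ℝ) := by exact_mod_cast hx1pos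
    rwa [Int.cast_abs] at this
  have hxR : |(x : ℝ)| = g * |(x1 : ℝ)| := by
    have : (((|x| : ℤ)) : ℝ) = ((g * |x1| : ℤ) : ℝ) := by rw [hxabs]
    push_cast at this
    exact this
  have hgoal : 3 * (N : ℝ) * (Int.gcd x S : ℝ) * |(x : ℝ)|⁻¹ = 3 * N / |(x1 : ℝ)| := by
    have e : ((Int.gcd x S : ℕ) : ℝ) = (g : ℝ) := by rw [hg]; push_cast; rfl
    rw [e, hxR]
    field_simp
  rw [hgoal]
  have hx1N : |x1| ≤ N := by
    have : |x1| ≤ g * |x1| := by nlinarith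
    linarith [hxabs]
  have hx1NR : |(x1 : ℝ)| ≤ N := by
    have : (((|x1| : ℤ)) : ℝ) ≤ (N : ℝ) := by exact_mod_cast hx1N
    rwa [Int.cast_abs] at this
  rcases P.eq_empty_or_nonempty with he | ⟨⟨c0, y0⟩, h0⟩
  · rw [he, card_empty, Nat.cast_zero]; positivity
  have hdvd : ∀ p ∈ P, x1 ∣ (p.1 - c0) := by
    intro p hp
    rw [hP, mem_filter] at hp h0
    have h1 := hp.2
    have h2 := h0.2
    simp only at h2
    rw [hx1, hS1] at h1 h2
    have h3 : g * (x1 * (y0 - p.2)) = g * (S1 * (p.1 - c0)) := by linear_combination h2 - h1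
    have h4 := mul_left_cancel₀ hg0.ne' h3
    have h5 : x1 ∣ S1 * (p.1 - c0) := ⟨_, h4.symm⟩
    exact Int.dvd_of_dvd_mul_right_of_gcd_one h5 hcop
  set R : ℤ := N / |x1| with hR
  have hRnn : 0 ≤ R := Int.ediv_nonneg (by omega) (abs_nonneg _)
  have hcard : P.card ≤ (Icc (-R) R).card := by
    refine card_le_card_of_injOn (fun p => (p.1 - c0) / x1) ?_ ?_
    · intro p hp
      have hp' : p ∈ P := hp
      obtain ⟨k, hk⟩ := hdvd p hp'
      rw [hP, mem_filter, mem_product, mem_Icc, mem_Icc] at hp' h0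
      simp only [hk, Int.mul_ediv_cancel_left _ hx10, coe_Icc, Set.mem_Icc]
      have h5 : |x1| * |k| ≤ N := by
        rw [← abs_mul, ← hk, abs_le]
        constructor <;> linarith [hp'.1.1.1, hp'.1.1.2, h0.1.1.1, h0.1.1.2]
      have h6 : |k| ≤ R := by
        rw [hR, Int.le_ediv_iff_mul_le hx1pos, mul_comm]
        exact h5
      exact abs_le.mp h6
    · intro p hp q hq hpq
      have hp' : p ∈ P := hp
      have hq' : q ∈ P := hq
      obtain ⟨k, hk⟩ := hdvd p hp'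
      obtain ⟨l, hl⟩ := hdvd q hq'
      simp only [hk, hl, Int.mul_ediv_cancel_left _ hx10] at hpq
      have h1 : p.1 = q.1 := by
        have : p.1 - c0 = q.1 - c0 := by rw [hk, hl, hpq]
        linarith
      rw [hP, mem_filter] at hp' hq'
      have h2 := hp'.2
      have h3 := hq'.2
      rw [h1] at h2
      have h4 : x * p.2 = x * q.2 := by linear_combination h2 - h3
      exact Prod.ext h1 (mul_left_cancel₀ hx h4)
  have hcard2 : ((Icc (-R) R).card : ℝ) = 2 * R + 1 := by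
    rw [Int.card_Icc]
    have : ((R + 1 - -R).toNat : ℤ) = 2 * R + 1 := by
      rw [Int.toNat_of_nonneg (by omega)]; ring
    exact_mod_cast this
  have hRle : (R : ℝ) ≤ N / |(x1 : ℝ)| := by
    rw [le_div_iff₀ hx1R]
    have h1 : R * |x1| ≤ N := Int.ediv_mul_le _ hx1pos.ne'
    have h2 : ((R * |x1| : ℤ) : ℝ) ≤ (N : ℝ) := by exact_mod_cast h1
    push_cast at h2
    exact h2
  have h1le : (1 : ℝ) ≤ N / |(x1 : ℝ)| := by rwa [le_div_iff₀ hx1R, one_mul]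
  calc (P.card : ℝ) ≤ ((Icc (-R) R).card : ℝ) := by exact_mod_cast hcard
    _ = 2 * R + 1 := hcard2
    _ ≤ 2 * (N / |(x1 : ℝ)|) + N / |(x1 : ℝ)| := by linarith
    _ = 3 * N / |(x1 : ℝ)| := by ring

/-- the inner sum for fixed `x, S ≠ 0` -/
theorem inner (N x S : ℤ) (T K : ℝ) (hT : 0 ≤ T) (hK : 0 ≤ K) (hN : 1 ≤ N) (hx : x ≠ 0)
    (hxN : |x| ≤ N) (hS : |S| ≤ 2 * N) :
    ∑ p ∈ Icc N (2 * N) ×ˢ Icc (-N) N, F T K (x * p.2 + S * p.1) ≤
      3 * N * (Int.gcd x S : ℝ) * |(x : ℝ)|⁻¹ * T + 3 * N * |(x : ℝ)|⁻¹ * K * hs (5 * N ^ 2) := by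
  classical
  set M : ℤ := 5 * N ^ 2 with hM
  set Q := Icc N (2 * N) ×ˢ Icc (-N) N with hQ
  set B : ℝ := 3 * N * (Int.gcd x S : ℝ) * |(x : ℝ)|⁻¹ with hB
  have hNR : (0 : ℝ) < N := by exact_mod_cast (by omega : 0 < N)
  have hBnn : 0 ≤ B := by positivity
  have hgpos : 0 < Int.gcd x S := Int.gcd_pos_of_ne_zero_left _ hx
  have hmaps : ∀ p ∈ Q, x * p.2 + S * p.1 ∈ Icc (-M) M := by
    intro p hp
    rw [hQ, mem_product, mem_Icc, mem_Icc] at hp
    obtain ⟨⟨h1, h2⟩, h3, h4⟩ := hp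
    have h5 : |p.2| ≤ N := abs_le.mpr ⟨h3, h4⟩
    have h6 : |p.1| ≤ 2 * N := abs_le.mpr ⟨by omega, h2⟩
    have h7 : |x * p.2| ≤ N * N := by
      rw [abs_mul]; exact mul_le_mul hxN h5 (abs_nonneg _) (by omega)
    have h8 : |S * p.1| ≤ 2 * N * (2 * N) := by
      rw [abs_mul]; exact mul_le_mul hS h6 (abs_nonneg _) (by omega)
    rw [mem_Icc, ← abs_le]
    calc |x * p.2 + S * p.1| ≤ |x * p.2| + |S * p.1| := abs_add_le _ _
      _ ≤ N * N + 2 * N * (2 * N) := add_le_add h7 h8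
      _ = M := by rw [hM]; ring
  rw [← sum_fiberwise_of_maps_to hmaps]
  have h1 : ∀ h ∈ Icc (-M) M, ∑ p ∈ Q with x * p.2 + S * p.1 = h, F T K (x * p.2 + S * p.1) ≤
      if (Int.gcd x S : ℤ) ∣ h then B * F T K h else 0 := by
    intro h _
    have e : ∑ p ∈ Q with x * p.2 + S * p.1 = h, F T K (x * p.2 + S * p.1) =
        ((Q.filter fun p : ℤ × ℤ => x * p.2 + S * p.1 = h).card : ℝ) * F T K h := by
      rw [← nsmul_eq_mul, ← sum_const]
      refine sum_congr rfl fun p hp => ?_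
      rw [mem_filter] at hp
      rw [hp.2]
    rw [e]
    split_ifs with hd
    · exact mul_le_mul_of_nonneg_right (fiber_card N x S h hN hx hxN) (F_nonneg hT hK h)
    · have : (Q.filter fun p : ℤ × ℤ => x * p.2 + S * p.1 = h) = ∅ := by
        rw [filter_eq_empty_iff]
        intro p _ hp
        exact hd (hp ▸ dvd_add ((Int.gcd_dvd_left ..).mul_right _) ((Int.gcd_dvd_right ..).mul_right _))
      rw [this, card_empty, Nat.cast_zero, zero_mul]
  refine (sum_le_sum h1).trans ?_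
  rw [← sum_filter, ← mul_sum]
  have h2 : ∑ h ∈ Icc (-M) M with (Int.gcd x S : ℤ) ∣ h, F T K h ≤
      T + K * ((Int.gcd x S : ℝ)⁻¹ * hs M) := by
    have h3 : ∀ h : ℤ, F T K h ≤ (if h = 0 then T else 0) + K * |(h : ℝ)|⁻¹ := by
      intro h
      unfold F
      split_ifs with h0
      · rw [h0]; simp
      · linarith
    refine (sum_le_sum fun h _ => h3 h).trans ?_
    rw [sum_add_distrib]
    refine add_le_add ?_ ?_
    · rw [sum_ite_eq']
      split_ifs <;> linarith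
    · rw [← mul_sum]
      refine mul_le_mul_of_nonneg_left ?_ hK
      have := mult_sum (Int.gcd x S : ℤ) M (by exact_mod_cast hgpos)
      simpa using this
  refine (mul_le_mul_of_nonneg_left h2 hBnn).trans (le_of_eq ?_)
  have hgR : ((Int.gcd x S : ℕ) : ℝ) ≠ 0 := by exact_mod_cast hgpos.ne'
  rw [hB]
  field_simp

/-- the double gcd sum -/
theorem gcd_sum (N : ℤ) (hN : 1 ≤ N) :
    ∑ S ∈ Icc (-(2 * N)) (2 * N), ∑ x ∈ Icc (-N) N,
      |(S : ℝ)|⁻¹ * ((if x = 0 then (0 : ℝ) else (Int.gcd x S : ℝ)) * |(x : ℝ)|⁻¹) ≤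
      hs (2 * N) ^ 3 := by
  classical
  have h1 : ∀ S ∈ Icc (-(2 * N)) (2 * N), ∀ x ∈ Icc (-N) N,
      |(S : ℝ)|⁻¹ * ((if x = 0 then (0 : ℝ) else (Int.gcd x S : ℝ)) * |(x : ℝ)|⁻¹) ≤
      ∑ g ∈ Icc 1 N, (g : ℝ) * ((if g ∣ S then |(S : ℝ)|⁻¹ else 0) *
        (if g ∣ x then |(x : ℝ)|⁻¹ else 0)) := by
    intro S _ x hx
    split_ifs with hx0
    · rw [zero_mul, mul_zero]
      exact sum_nonneg fun g hg => by
        have : (0 : ℝ) ≤ g := by exact_mod_cast (by rw [mem_Icc] at hg; omega : (0 : ℤ) ≤ g)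
        split_ifs <;> positivity
    · have hgpos : 0 < Int.gcd x S := Int.gcd_pos_of_ne_zero_left _ hx0
      have hgm : (Int.gcd x S : ℤ) ∈ Icc 1 N := by
        rw [mem_Icc] at hx ⊢
        refine ⟨by exact_mod_cast hgpos, ?_⟩
        have h2 : (Int.gcd x S : ℤ) ∣ x := Int.gcd_dvd_left ..
        have h3 : (Int.gcd x S : ℤ) ≤ |x| :=
          Int.le_of_dvd (abs_pos.mpr hx0) ((dvd_abs _ _).mpr h2)
        exact h3.trans (abs_le.mpr hx)
      refine le_trans (le_of_eq ?_) (single_le_sum (f := fun g : ℤ => (g : ℝ) *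
        ((if g ∣ S then |(S : ℝ)|⁻¹ else 0) * (if g ∣ x then |(x : ℝ)|⁻¹ else 0)))
        (fun g hg => by
          have : (0 : ℝ) ≤ g := by exact_mod_cast (by rw [mem_Icc] at hg; omega : (0 : ℤ) ≤ g)
          split_ifs <;> positivity) hgm)
      rw [if_pos (Int.gcd_dvd_left ..), if_pos (Int.gcd_dvd_right ..)]
      push_cast
      ring
  refine (sum_le_sum fun S hS => sum_le_sum fun x hx => h1 S hS x hx).trans ?_
  have e1 : ∑ S ∈ Icc (-(2 * N)) (2 * N), ∑ x ∈ Icc (-N) N, ∑ g ∈ Icc 1 N,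
      (g : ℝ) * ((if g ∣ S then |(S : ℝ)|⁻¹ else 0) * (if g ∣ x then |(x : ℝ)|⁻¹ else 0)) =
      ∑ g ∈ Icc 1 N, (g : ℝ) * ((∑ S ∈ Icc (-(2 * N)) (2 * N) with g ∣ S, |(S : ℝ)|⁻¹) *
        ∑ x ∈ Icc (-N) N with g ∣ x, |(x : ℝ)|⁻¹) := by
    have : ∀ g : ℤ, (g : ℝ) * ((∑ S ∈ Icc (-(2 * N)) (2 * N) with g ∣ S, |(S : ℝ)|⁻¹) *
        ∑ x ∈ Icc (-N) N with g ∣ x, |(x : ℝ)|⁻¹) = ∑ S ∈ Icc (-(2 * N)) (2 * N),
        ∑ x ∈ Icc (-N) N, (g : ℝ) * ((if g ∣ S then |(S : ℝ)|⁻¹ else 0) *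
          (if g ∣ x then |(x : ℝ)|⁻¹ else 0)) := by
      intro g
      rw [sum_filter, sum_filter, sum_mul_sum, mul_sum]
      exact sum_congr rfl fun S _ => by rw [mul_sum]
    rw [sum_congr rfl fun g _ => this g, sum_comm' (s := Icc (1 : ℤ) N)
      (t := fun _ => Icc (-(2 * N)) (2 * N)) (t' := Icc (-(2 * N)) (2 * N))
      (s' := fun _ => Icc (1 : ℤ) N) (by tauto)]
    refine sum_congr rfl fun S _ => ?_
    rw [sum_comm]
  rw [e1]
  have h4 : ∀ g ∈ Icc (1 : ℤ) N, (g : ℝ) * ((∑ S ∈ Icc (-(2 * N)) (2 * N) with g ∣ S,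
      |(S : ℝ)|⁻¹) * ∑ x ∈ Icc (-N) N with g ∣ x, |(x : ℝ)|⁻¹) ≤
      |(g : ℝ)|⁻¹ * (hs (2 * N) * hs (2 * N)) := by
    intro g hg
    rw [mem_Icc] at hg
    have hg0 : (0 : ℝ) < g := by exact_mod_cast (by omega : (0 : ℤ) < g)
    have a1 := mult_sum g (2 * N) hg.1
    have a2 := (mult_sum g N hg.1).trans (mul_le_mul_of_nonneg_left
      (hs_mono (by omega : N ≤ 2 * N)) (by positivity))
    calc _ ≤ (g : ℝ) * (((g : ℝ)⁻¹ * hs (2 * N)) * ((g : ℝ)⁻¹ * hs (2 * N))) := by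
          refine mul_le_mul_of_nonneg_left ?_ hg0.le
          refine mul_le_mul a1 a2 (sum_nonneg fun _ _ => by positivity) ?_
          have := hs_nonneg (2 * N)
          positivity
      _ = _ := by
        rw [abs_of_pos hg0]
        field_simp
  refine (sum_le_sum h4).trans ?_
  rw [← sum_mul]
  have h5 : ∑ g ∈ Icc (1 : ℤ) N, |(g : ℝ)|⁻¹ ≤ hs (2 * N) := by
    unfold hs
    refine sum_le_sum_of_subset_of_nonneg (fun k hk => ?_) fun _ _ _ => by positivity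
    rw [mem_Icc] at hk ⊢
    constructor <;> omega
  calc _ ≤ hs (2 * N) * (hs (2 * N) * hs (2 * N)) :=
        mul_le_mul_of_nonneg_right h5 (mul_nonneg (hs_nonneg _) (hs_nonneg _))
    _ = _ := by ring

theorem F_le {T K : ℝ} (h : ℤ) : F T K h ≤ (if h = 0 then T else 0) + K * |(h : ℝ)|⁻¹ := by
  unfold F
  split_ifs with h0
  · rw [h0]; simp
  · linarith

theorem hs_one_le {M : ℤ} (hM : 1 ≤ M) : 1 ≤ hs M := by
  unfold hs
  refine le_trans ?_ (single_le_sum (f := fun k : ℤ => |(k : ℝ)|⁻¹) (fun _ _ => by positivity)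
    (mem_Icc.mpr ⟨by omega, hM⟩ : (1 : ℤ) ∈ Icc (-M) M))
  simp

theorem card_Icc_sym (N : ℤ) (hN : 1 ≤ N) : ((Icc (-N) N).card : ℝ) ≤ 3 * N := by
  rw [Int.card_Icc]
  have : ((N + 1 - -N).toNat : ℤ) = 2 * N + 1 := by
    rw [Int.toNat_of_nonneg (by omega)]; ring
  have h2 : (((N + 1 - -N).toNat : ℕ) : ℝ) = 2 * (N : ℝ) + 1 := by exact_mod_cast this
  have hNR : (1 : ℝ) ≤ N := by exact_mod_cast hN
  linarith

theorem card_Icc_two (N : ℤ) (hN : 1 ≤ N) : ((Icc N (2 * N)).card : ℝ) ≤ 2 * N := by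
  rw [Int.card_Icc]
  have : ((2 * N + 1 - N).toNat : ℤ) = N + 1 := by
    rw [Int.toNat_of_nonneg (by omega)]; ring
  have h2 : (((2 * N + 1 - N).toNat : ℕ) : ℝ) = (N : ℝ) + 1 := by exact_mod_cast this
  have hNR : (1 : ℝ) ≤ N := by exact_mod_cast hN
  linarith

/-- the part `S = 0` -/
theorem part_zero (N : ℤ) (T K : ℝ) (hT : 0 ≤ T) (hK : 0 ≤ K) (hN : 1 ≤ N) :
    ∑ x ∈ Icc (-N) N, ∑ p ∈ Icc N (2 * N) ×ˢ Icc (-N) N, F T K (x * p.2 + 0 * p.1) ≤
      2 * N * (6 * N * T + K * hs N ^ 2) := by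
  classical
  have hNR : (1 : ℝ) ≤ N := by exact_mod_cast hN
  have e1 : ∀ x ∈ Icc (-N) N, ∑ p ∈ Icc N (2 * N) ×ˢ Icc (-N) N, F T K (x * p.2 + 0 * p.1) ≤
      2 * N * ∑ y ∈ Icc (-N) N, F T K (x * y) := by
    intro x _
    rw [sum_product]
    have : ∀ c ∈ Icc N (2 * N), ∑ y ∈ Icc (-N) N, F T K (x * y + 0 * c) =
        ∑ y ∈ Icc (-N) N, F T K (x * y) := fun c _ =>
      sum_congr rfl fun y _ => by rw [zero_mul, add_zero]
    simp only
    rw [sum_congr rfl this, sum_const, nsmul_eq_mul]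
    exact mul_le_mul_of_nonneg_right (card_Icc_two N hN) (sum_nonneg fun _ _ => F_nonneg hT hK _)
  refine (sum_le_sum e1).trans ?_
  rw [← mul_sum]
  refine mul_le_mul_of_nonneg_left ?_ (by positivity)
  have e2 : ∀ x ∈ Icc (-N) N, ∀ y ∈ Icc (-N) N, F T K (x * y) ≤
      ((if x = 0 then T else 0) + (if y = 0 then T else 0)) + K * (|(x : ℝ)|⁻¹ * |(y : ℝ)|⁻¹) := by
    intro x _ y _
    refine (F_le _).trans (add_le_add ?_ (le_of_eq ?_))
    · by_cases hx : x = 0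
      · simp only [hx, zero_mul, if_true]
        split_ifs <;> linarith
      · by_cases hy : y = 0
        · simp only [hy, mul_zero, if_true]
          split_ifs <;> linarith
        · simp [hx, hy]
    · push_cast
      rw [abs_mul, mul_inv]
  refine (sum_le_sum fun x hx => sum_le_sum fun y hy => e2 x hx y hy).trans
    (le_of_eq_of_le (b := 2 * ((Icc (-N) N).card * T) + K * hs N ^ 2) ?_ ?_)
  · simp only [sum_add_distrib, sum_const, nsmul_eq_mul]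
    have h0 : (0 : ℤ) ∈ Icc (-N) N := by rw [mem_Icc]; omega
    rw [sum_ite_eq' , if_pos h0, ← mul_sum, sum_ite_eq', if_pos h0]
    have : ∑ x ∈ Icc (-N) N, ∑ y ∈ Icc (-N) N, K * (|(x : ℝ)|⁻¹ * |(y : ℝ)|⁻¹) = K * hs N ^ 2 := by
      unfold hs
      rw [pow_two, sum_mul_sum, mul_sum]
      exact sum_congr rfl fun x _ => by rw [mul_sum]
    rw [this]
    ring
  · have := mul_le_mul_of_nonneg_right (card_Icc_sym N hN) hT
    linarith

/-- the part `S ≠ 0` -/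
theorem part_ne (N : ℤ) (T K : ℝ) (hT : 0 ≤ T) (hK : 0 ≤ K) (hN : 1 ≤ N) :
    ∑ S ∈ Icc (-(2 * N)) (2 * N), |(S : ℝ)|⁻¹ * ∑ x ∈ Icc (-N) N,
      ∑ p ∈ Icc N (2 * N) ×ˢ Icc (-N) N, F T K (x * p.2 + S * p.1) ≤
      (3 * N * T + 9 * N * K) * hs (5 * N ^ 2) ^ 3 := by
  classical
  have hNR : (1 : ℝ) ≤ N := by exact_mod_cast hN
  set H := hs (5 * N ^ 2) with hH
  have hH1 : 1 ≤ H := hs_one_le (by nlinarith)
  have hHN : hs N ≤ H := hs_mono (by nlinarith)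
  have hH2N : hs (2 * N) ≤ H := hs_mono (by nlinarith)
  have key : ∀ S ∈ Icc (-(2 * N)) (2 * N), ∀ x ∈ Icc (-N) N,
      |(S : ℝ)|⁻¹ * ∑ p ∈ Icc N (2 * N) ×ˢ Icc (-N) N, F T K (x * p.2 + S * p.1) ≤
      3 * N * T * (|(S : ℝ)|⁻¹ * ((if x = 0 then (0 : ℝ) else (Int.gcd x S : ℝ)) * |(x : ℝ)|⁻¹)) +
      3 * N * K * H * (|(S : ℝ)|⁻¹ * |(x : ℝ)|⁻¹) +
      (if x = 0 then 6 * N * K * |(S : ℝ)|⁻¹ else 0) := by
    intro S hS x hx
    rw [mem_Icc, ← abs_le] at hS hx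
    by_cases hx0 : x = 0
    · subst hx0
      by_cases hS0 : S = 0
      · subst hS0; simp
      have hSR : (1 : ℝ) ≤ |(S : ℝ)| := by
        have : (1 : ℤ) ≤ |S| := Int.one_le_abs hS0
        exact_mod_cast this
      have b1 : ∀ p ∈ Icc N (2 * N) ×ˢ Icc (-N) N, F T K (0 * p.2 + S * p.1) ≤ K * (N : ℝ)⁻¹ := by
        intro p hp
        rw [mem_product, mem_Icc, mem_Icc] at hp
        have hp1 : p.1 ≠ 0 := by omega
        have hne : 0 * p.2 + S * p.1 ≠ 0 := by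
          rw [zero_mul, zero_add]; exact mul_ne_zero hS0 hp1
        unfold F
        rw [if_neg hne]
        refine mul_le_mul_of_nonneg_left ?_ hK
        refine inv_anti₀ (by positivity) ?_
        push_cast
        rw [zero_mul, zero_add, abs_mul]
        have hc : (N : ℝ) ≤ |(p.1 : ℝ)| := by
          have : (N : ℝ) ≤ p.1 := by exact_mod_cast hp.1.1
          exact this.trans (le_abs_self _)
        nlinarith
      have b2 : ∑ p ∈ Icc N (2 * N) ×ˢ Icc (-N) N, F T K (0 * p.2 + S * p.1) ≤ 6 * N * K := by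
        refine (sum_le_card_nsmul _ _ _ b1).trans ?_
        rw [nsmul_eq_mul, card_product]
        push_cast
        have c1 := card_Icc_two N hN
        have c2 := card_Icc_sym N hN
        calc ((Icc N (2 * N)).card : ℝ) * ((Icc (-N) N).card : ℝ) * (K * (N : ℝ)⁻¹)
            ≤ (2 * N) * (3 * N) * (K * (N : ℝ)⁻¹) := by
              refine mul_le_mul_of_nonneg_right ?_ (by positivity)
              exact mul_le_mul c1 c2 (by positivity) (by positivity)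
          _ = 6 * N * K := by field_simp; ring
      simp only [if_true, Int.cast_zero, abs_zero, inv_zero, mul_zero, zero_add]
      calc _ ≤ |(S : ℝ)|⁻¹ * (6 * N * K) := mul_le_mul_of_nonneg_left b2 (by positivity)
        _ = _ := by ring
    · simp only [hx0, if_false, add_zero]
      refine (mul_le_mul_of_nonneg_left (inner N x S T K hT hK hN hx0 hx hS)
        (by positivity)).trans (le_of_eq ?_)
      rw [← hH]
      ring
  simp only [mul_sum] at key ⊢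
  refine (sum_le_sum fun S hS => sum_le_sum fun x hx => key S hS x hx).trans ?_
  simp only [sum_add_distrib, ← mul_sum]
  have g := gcd_sum N hN
  simp only [← mul_sum] at g
  have g2 : hs (2 * N) ^ 3 ≤ H ^ 3 := pow_le_pow_left₀ (hs_nonneg _) hH2N 3
  have t1 : 3 * N * T * ∑ S ∈ Icc (-(2 * N)) (2 * N), |(S : ℝ)|⁻¹ * ∑ x ∈ Icc (-N) N,
      ((if x = 0 then (0 : ℝ) else (Int.gcd x S : ℝ)) * |(x : ℝ)|⁻¹) ≤ 3 * N * T * H ^ 3 :=
    mul_le_mul_of_nonneg_left (g.trans g2) (by positivity)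
  have t2 : 3 * N * K * H * ∑ S ∈ Icc (-(2 * N)) (2 * N), |(S : ℝ)|⁻¹ * ∑ x ∈ Icc (-N) N,
      |(x : ℝ)|⁻¹ ≤ 3 * N * K * H ^ 3 := by
    rw [← sum_mul]
    change 3 * N * K * H * (hs (2 * N) * hs N) ≤ _
    have : hs (2 * N) * hs N ≤ H * H := mul_le_mul hH2N hHN (hs_nonneg _) (by linarith)
    calc _ ≤ 3 * N * K * H * (H * H) := mul_le_mul_of_nonneg_left this (by positivity)
      _ = _ := by ring
  have t3 : ∑ S ∈ Icc (-(2 * N)) (2 * N), ∑ x ∈ Icc (-N) N,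
      (if x = 0 then 6 * N * K * |(S : ℝ)|⁻¹ else 0) ≤ 6 * N * K * H ^ 3 := by
    have h0 : (0 : ℤ) ∈ Icc (-N) N := by rw [mem_Icc]; omega
    have : ∀ S ∈ Icc (-(2 * N)) (2 * N), ∑ x ∈ Icc (-N) N,
      (if x = 0 then 6 * N * K * |(S : ℝ)|⁻¹ else 0) = 6 * N * K * |(S : ℝ)|⁻¹ := fun S _ => by
      rw [sum_ite_eq', if_pos h0]
    rw [sum_congr rfl this, ← mul_sum]
    change 6 * N * K * hs (2 * N) ≤ _
    refine mul_le_mul_of_nonneg_left ?_ (by positivity)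
    calc hs (2 * N) ≤ H := hH2N
      _ = H ^ 1 := (pow_one _).symm
      _ ≤ H ^ 3 := pow_le_pow_right₀ hH1 (by norm_num)
  nlinarith [t1, t2, t3]

/-- the full sum -/
theorem total (N : ℤ) (δ T K : ℝ) (hδ : 0 ≤ δ) (hT : 0 ≤ T) (hK : 0 ≤ K) (hN : 1 ≤ N) :
    ∑ S ∈ Icc (-(2 * N)) (2 * N), ∑ x ∈ Icc (-N) N,
      ∑ p ∈ Icc N (2 * N) ×ˢ Icc (-N) N, w δ S * F T K (x * p.2 + S * p.1) ≤
      δ * (2 * N * (6 * N * T + K * hs (5 * N ^ 2) ^ 2)) +
      (3 * N * T + 9 * N * K) * hs (5 * N ^ 2) ^ 3 := by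
  classical
  have hNR : (1 : ℝ) ≤ N := by exact_mod_cast hN
  have hHN : hs N ≤ hs (5 * N ^ 2) := hs_mono (by nlinarith)
  have h0 : (0 : ℤ) ∈ Icc (-(2 * N)) (2 * N) := by rw [mem_Icc]; omega
  simp only [← mul_sum]
  have hw : ∀ S : ℤ, w δ S = (if S = 0 then δ else 0) + |(S : ℝ)|⁻¹ := by
    intro S
    unfold w
    split_ifs with h
    · rw [h]; simp
    · rw [zero_add]
  simp only [hw, add_mul (ite _ _ _) _ _, sum_add_distrib]
  refine add_le_add ?_ (part_ne N T K hT hK hN)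
  simp only [ite_mul, zero_mul]
  rw [sum_ite_eq' , if_pos h0]
  refine mul_le_mul_of_nonneg_left ?_ hδ
  refine (part_zero N T K hT hK hN).trans ?_
  refine mul_le_mul_of_nonneg_left ?_ (by positivity)
  have : hs N ^ 2 ≤ hs (5 * N ^ 2) ^ 2 := pow_le_pow_left₀ (hs_nonneg _) hHN 2
  have := mul_le_mul_of_nonneg_left this hK
  linarith

/-- the reparametrisation -/
theorem quad (N : ℤ) (δ T K : ℝ) (hδ : 0 ≤ δ) (hT : 0 ≤ T) (hK : 0 ≤ K) (hN : 1 ≤ N) :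
    ∑ u ∈ (Icc N (2 * N) ×ˢ Icc N (2 * N)) ×ˢ (Icc N (2 * N) ×ˢ Icc N (2 * N)),
      w δ (u.1.1 + u.1.2 - u.2.1 - u.2.2) * F T K (u.1.1 * u.1.2 - u.2.1 * u.2.2) ≤
      δ * (2 * N * (6 * N * T + K * hs (5 * N ^ 2) ^ 2)) +
      (3 * N * T + 9 * N * K) * hs (5 * N ^ 2) ^ 3 := by
  classical
  refine le_trans ?_ (total N δ T K hδ hT hK hN)
  have e : ∑ S ∈ Icc (-(2 * N)) (2 * N), ∑ x ∈ Icc (-N) N,
      ∑ p ∈ Icc N (2 * N) ×ˢ Icc (-N) N, w δ S * F T K (x * p.2 + S * p.1) =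
      ∑ v ∈ (Icc (-(2 * N)) (2 * N) ×ˢ Icc (-N) N) ×ˢ (Icc N (2 * N) ×ˢ Icc (-N) N),
        w δ v.1.1 * F T K (v.1.2 * v.2.2 + v.1.1 * v.2.1) := by
    rw [sum_product, sum_product]
  rw [e]
  refine sum_le_inj _ _ (fun u => ((u.1.1 + u.1.2 - u.2.1 - u.2.2, u.2.1 - u.1.1),
    (u.2.1, u.2.1 - u.1.2))) _ _ ?_ ?_ ?_ (fun v _ => mul_nonneg (w_nonneg hδ _) (F_nonneg hT hK _))
  · rintro ⟨⟨a, b⟩, c, d⟩ _ ⟨⟨a', b'⟩, c', d'⟩ _ h
    simp only [Prod.mk.injEq] at h ⊢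
    obtain ⟨⟨h1, h2⟩, h3, h4⟩ := h
    refine ⟨⟨by omega, by omega⟩, by omega, by omega⟩
  · rintro ⟨⟨a, b⟩, c, d⟩ h
    simp only [mem_product, mem_Icc] at h ⊢
    omega
  · rintro ⟨⟨a, b⟩, c, d⟩ _
    refine le_of_eq ?_
    simp only
    congr 2
    ring

end Pool.Agent.U623.TW
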