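import Pool.Agent.U623.TW.Count

set_option autoImplicit false

/-!
# The fourth moment of an additively twisted Dirichlet polynomial, on average over the twist
-/

open Finset Complex MeasureTheory intervalIntegral

namespace Pool.Agent.U623.TW

/-- the twisted Dirichlet polynomial -/
noncomputable def DT (N : ℕ) (b : ℕ → ℂ) (β t : ℝ) : ℂ :=
  ∑ n ∈ Icc N (2 * N), b n * exp (I * ((2 * Real.pi * β * n + t * Real.log n : ℝ) : ℂ))

theorem sq_expand {ι : Type*} (P : Finset ι) (g : ι → ℂ) (φ : ι → ℝ) :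
    ((‖∑ p ∈ P, g p * exp (I * (φ p : ℂ))‖ ^ 2 : ℝ) : ℂ) =
      ∑ p ∈ P, ∑ q ∈ P, g p * (starRingEnd ℂ) (g q) * exp (I * ((φ p - φ q : ℝ) : ℂ)) := by
  push_cast
  rw [← Complex.mul_conj', map_sum, sum_mul_sum]
  refine sum_congr rfl fun p _ => sum_congr rfl fun q _ => ?_
  rw [map_mul, ← Complex.exp_conj, map_mul, Complex.conj_I, Complex.conj_ofReal]
  have : exp (I * ((φ p : ℂ) - (φ q : ℂ))) = exp (I * (φ p : ℂ)) * exp (-I * (φ q : ℂ)) := by
    rw [← Complex.exp_add]; congr 1; ring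
  rw [this]
  ring

theorem int_bound (β0 δ : ℝ) (hδ : 0 ≤ δ) (S : ℤ) :
    ‖∫ β in β0..(β0 + δ), exp (I * ((2 * Real.pi * β * S : ℝ) : ℂ))‖ ≤ w δ S := by
  unfold w
  split_ifs with h
  · subst h
    simp [abs_of_nonneg hδ]
  · have hS : (S : ℂ) ≠ 0 := by exact_mod_cast h
    have hSR : (0 : ℝ) < |(S : ℝ)| := by
      rw [abs_pos]; exact_mod_cast h
    have hc : (2 * Real.pi * S * I : ℂ) ≠ 0 := by
      have : (Real.pi : ℂ) ≠ 0 := by exact_mod_cast Real.pi_ne_zero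
      simp [this, hS]
    have e : ∀ β : ℝ, exp (I * ((2 * Real.pi * β * S : ℝ) : ℂ)) =
        exp ((2 * Real.pi * S * I : ℂ) * β) := by
      intro β; congr 1; push_cast; ring
    simp only [e]
    rw [integral_exp_mul_complex hc, norm_div]
    have n1 : ∀ x : ℝ, ‖exp ((2 * Real.pi * S * I : ℂ) * x)‖ = 1 := by
      intro x
      have : (2 * Real.pi * S * I : ℂ) * x = ((2 * Real.pi * S * x : ℝ) : ℂ) * I := by
        push_cast; ring
      rw [this, Complex.norm_exp_ofReal_mul_I]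
    have n2 : ‖(2 * Real.pi * S * I : ℂ)‖ = 2 * Real.pi * |(S : ℝ)| := by
      have : (2 * Real.pi * S * I : ℂ) = ((2 * Real.pi * S : ℝ) : ℂ) * I := by
        push_cast; ring
      rw [this, norm_mul, Complex.norm_I, mul_one, Complex.norm_real, Real.norm_eq_abs, abs_mul,
        abs_of_pos (by positivity)]
    rw [n2]
    have n3 : ‖exp ((2 * Real.pi * S * I : ℂ) * ((β0 + δ : ℝ) : ℂ)) -
        exp ((2 * Real.pi * S * I : ℂ) * (β0 : ℂ))‖ ≤ 2 := by
      refine (norm_sub_le _ _).trans ?_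
      rw [n1, n1]; norm_num
    rw [div_le_iff₀ (by positivity)]
    refine n3.trans ?_
    have : |(S : ℝ)|⁻¹ * (2 * Real.pi * |(S : ℝ)|) = 2 * Real.pi := by
      field_simp
    rw [this]
    nlinarith [Real.pi_gt_three]

theorem geom_triv (T : ℕ) (θ : ℝ) : ‖∑ t ∈ Icc 1 T, exp (I * ((t * θ : ℝ) : ℂ))‖ ≤ T := by
  refine (norm_sum_le _ _).trans ?_
  have : ∀ t ∈ Icc 1 T, ‖exp (I * ((t * θ : ℝ) : ℂ))‖ = 1 := fun t _ => by
    rw [mul_comm, Complex.norm_exp_ofReal_mul_I]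
  rw [sum_congr rfl this]
  simp

theorem geom_bound (T : ℕ) (θ : ℝ) (h0 : θ ≠ 0) (hπ : |θ| ≤ Real.pi) :
    ‖∑ t ∈ Icc 1 T, exp (I * ((t * θ : ℝ) : ℂ))‖ ≤ Real.pi / |θ| := by
  set z : ℂ := exp (I * (θ : ℂ)) with hz
  have hθ : 0 < |θ| := abs_pos.mpr h0
  have hz1 : ‖z - 1‖ = ‖2 * Real.sin (θ / 2)‖ := Complex.norm_exp_I_mul_ofReal_sub_one θ
  have hsin : 2 / Real.pi * |θ| ≤ ‖z - 1‖ := by
    rw [hz1, Real.norm_eq_abs, abs_mul, abs_two]
    have h1 : 2 / Real.pi * (|θ| / 2) ≤ Real.sin (|θ| / 2) :=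
      Real.mul_le_sin (by positivity) (by linarith)
    have h2 : Real.sin (|θ| / 2) ≤ |Real.sin (θ / 2)| := by
      rcases le_or_gt 0 θ with h | h
      · rw [abs_of_nonneg h]; exact le_abs_self _
      · rw [abs_of_neg h, neg_div, Real.sin_neg]; exact neg_le_abs _
    calc 2 / Real.pi * |θ| = 2 * (2 / Real.pi * (|θ| / 2)) := by ring
      _ ≤ 2 * |Real.sin (θ / 2)| := by linarith
  have hzpos : 0 < ‖z - 1‖ := lt_of_lt_of_le (by positivity) hsin
  have hzne : z ≠ 1 := fun h => by simp [h] at hzpos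
  have hsum : ∑ t ∈ Icc 1 T, exp (I * ((t * θ : ℝ) : ℂ)) = z * ((z ^ T - 1) / (z - 1)) := by
    rw [← geom_sum_eq hzne, mul_sum]
    have hshift : ∀ (f : ℕ → ℂ) (T : ℕ), ∑ t ∈ Icc 1 T, f t = ∑ i ∈ range T, f (i + 1) := by
      intro f T
      induction T with
      | zero => simp
      | succ k ih => rw [Finset.sum_Icc_succ_top (by omega), sum_range_succ, ih]
    rw [hshift]
    refine sum_congr rfl fun i _ => ?_
    rw [← pow_succ', hz, ← Complex.exp_nat_mul]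
    congr 1
    push_cast
    ring
  rw [hsum, norm_mul, norm_div]
  have hzn : ‖z‖ = 1 := by rw [hz, mul_comm, Complex.norm_exp_ofReal_mul_I]
  rw [hzn, one_mul]
  have h3 : ‖z ^ T - 1‖ ≤ 2 := by
    refine (norm_sub_le _ _).trans ?_
    rw [norm_pow, hzn, one_pow, norm_one]; norm_num
  rw [div_le_div_iff₀ hzpos hθ]
  have hp := Real.pi_pos
  calc ‖z ^ T - 1‖ * |θ| ≤ 2 * |θ| := mul_le_mul_of_nonneg_right h3 hθ.le
    _ = Real.pi * (2 / Real.pi * |θ|) := by field_simp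
    _ ≤ _ := mul_le_mul_of_nonneg_left hsin hp.le

/-- the double mean value -/
theorem mean_sq {ι : Type*} (P : Finset ι) (g : ι → ℂ) (hg : ∀ p ∈ P, ‖g p‖ ≤ 1) (l : ι → ℤ)
    (μ : ι → ℝ) (T : ℕ) (β0 δ : ℝ) (hδ : 0 ≤ δ) (G : ι → ι → ℝ)
    (hG : ∀ p ∈ P, ∀ q ∈ P, ‖∑ t ∈ Icc 1 T, exp (I * ((t * (μ p - μ q) : ℝ) : ℂ))‖ ≤ G p q) :
    ∫ β in β0..(β0 + δ), ∑ t ∈ Icc 1 T,
      ‖∑ p ∈ P, g p * exp (I * ((2 * Real.pi * β * l p + t * μ p : ℝ) : ℂ))‖ ^ 2 ≤
      ∑ p ∈ P, ∑ q ∈ P, w δ (l p - l q) * G p q := by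
  have e1 : ∀ β : ℝ, ((∑ t ∈ Icc 1 T,
      ‖∑ p ∈ P, g p * exp (I * ((2 * Real.pi * β * l p + t * μ p : ℝ) : ℂ))‖ ^ 2 : ℝ) : ℂ) =
      ∑ p ∈ P, ∑ q ∈ P, exp (I * ((2 * Real.pi * β * ((l p - l q : ℤ) : ℝ) : ℝ) : ℂ)) *
        (g p * (starRingEnd ℂ) (g q) * ∑ t ∈ Icc 1 T, exp (I * ((t * (μ p - μ q) : ℝ) : ℂ))) := by
    intro β
    rw [ofReal_sum]
    simp only [sq_expand]
    rw [sum_comm]
    refine sum_congr rfl fun p _ => ?_
    rw [sum_comm]
    refine sum_congr rfl fun q _ => ?_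
    rw [mul_sum, mul_sum]
    refine sum_congr rfl fun t _ => ?_
    have : exp (I * (((2 * Real.pi * β * l p + t * μ p) - (2 * Real.pi * β * l q + t * μ q) : ℝ) : ℂ)) =
        exp (I * ((2 * Real.pi * β * ((l p - l q : ℤ) : ℝ) : ℝ) : ℂ)) *
          exp (I * ((t * (μ p - μ q) : ℝ) : ℂ)) := by
      rw [← Complex.exp_add]; congr 1; push_cast; ring
    rw [this]
    ring
  have hint : ∀ p q : ι, IntervalIntegrable (fun β : ℝ =>
      exp (I * ((2 * Real.pi * β * ((l p - l q : ℤ) : ℝ) : ℝ) : ℂ))) volume β0 (β0 + δ) := fun p q =>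
    (by fun_prop : Continuous _).intervalIntegrable _ _
  have e2 : ((∫ β in β0..(β0 + δ), ∑ t ∈ Icc 1 T,
      ‖∑ p ∈ P, g p * exp (I * ((2 * Real.pi * β * l p + t * μ p : ℝ) : ℂ))‖ ^ 2 : ℝ) : ℂ) =
      ∑ p ∈ P, ∑ q ∈ P, (∫ β in β0..(β0 + δ),
        exp (I * ((2 * Real.pi * β * ((l p - l q : ℤ) : ℝ) : ℝ) : ℂ))) *
        (g p * (starRingEnd ℂ) (g q) * ∑ t ∈ Icc 1 T, exp (I * ((t * (μ p - μ q) : ℝ) : ℂ))) := by
    rw [← intervalIntegral.integral_ofReal]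
    simp only [e1]
    rw [intervalIntegral.integral_finsetSum]
    · refine sum_congr rfl fun p _ => ?_
      rw [intervalIntegral.integral_finsetSum]
      · refine sum_congr rfl fun q _ => ?_
        rw [intervalIntegral.integral_mul_const]
      · intro q _
        exact (hint p q).mul_const _
    · intro p _
      refine (Continuous.intervalIntegrable ?_ _ _)
      fun_prop
  have hnn : 0 ≤ ∫ β in β0..(β0 + δ), ∑ t ∈ Icc 1 T,
      ‖∑ p ∈ P, g p * exp (I * ((2 * Real.pi * β * l p + t * μ p : ℝ) : ℂ))‖ ^ 2 :=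
    intervalIntegral.integral_nonneg (by linarith) fun _ _ => by positivity
  have e3 : (∫ β in β0..(β0 + δ), ∑ t ∈ Icc 1 T,
      ‖∑ p ∈ P, g p * exp (I * ((2 * Real.pi * β * l p + t * μ p : ℝ) : ℂ))‖ ^ 2) =
      ‖((∫ β in β0..(β0 + δ), ∑ t ∈ Icc 1 T,
      ‖∑ p ∈ P, g p * exp (I * ((2 * Real.pi * β * l p + t * μ p : ℝ) : ℂ))‖ ^ 2 : ℝ) : ℂ)‖ := by
    rw [Complex.norm_real, Real.norm_eq_abs, abs_of_nonneg hnn]
  rw [e3, e2]
  refine (norm_sum_le _ _).trans (sum_le_sum fun p hp => (norm_sum_le _ _).trans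
    (sum_le_sum fun q hq => ?_))
  rw [norm_mul, norm_mul, norm_mul, RCLike.norm_conj]
  have i1 := int_bound β0 δ hδ (l p - l q)
  have i2 : ‖g p‖ * ‖g q‖ ≤ 1 := by
    calc ‖g p‖ * ‖g q‖ ≤ 1 * 1 := mul_le_mul (hg p hp) (hg q hq) (norm_nonneg _) (by norm_num)
      _ = 1 := one_mul 1
  refine mul_le_mul i1 ?_ (by positivity) (w_nonneg hδ _)
  calc _ ≤ 1 * ‖∑ t ∈ Icc 1 T, exp (I * ((t * (μ p - μ q) : ℝ) : ℂ))‖ :=
        mul_le_mul_of_nonneg_right i2 (norm_nonneg _)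
    _ ≤ G p q := by rw [one_mul]; exact hG p hp q hq

theorem log_diff (x y M : ℝ) (hy : 0 < y) (hxy : y ≤ x) (hM : x ≤ M) :
    (x - y) / M ≤ Real.log x - Real.log y := by
  have hx : 0 < x := hy.trans_le hxy
  rw [← Real.log_div hx.ne' hy.ne']
  have h1 : 1 - (x / y)⁻¹ ≤ Real.log (x / y) := Real.one_sub_inv_le_log_of_pos (by positivity)
  refine le_trans ?_ h1
  rw [inv_div]
  have : 1 - y / x = (x - y) / x := by field_simp
  rw [this]
  exact div_le_div_of_nonneg_left (by linarith) hx hM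

theorem geom_F (N T a b c d : ℕ) (hN : 1 ≤ N) (ha : a ∈ Icc N (2 * N)) (hb : b ∈ Icc N (2 * N))
    (hc : c ∈ Icc N (2 * N)) (hd : d ∈ Icc N (2 * N)) :
    ‖∑ t ∈ Icc 1 T, exp (I * ((t * ((Real.log a + Real.log b) - (Real.log c + Real.log d)) : ℝ) : ℂ))‖
      ≤ F T (4 * Real.pi * N ^ 2) ((a : ℤ) * b - c * d) := by
  rw [mem_Icc] at ha hb hc hd
  have hN0 : (0 : ℝ) < N := by exact_mod_cast hN
  have ha1 : (N : ℝ) ≤ a := by exact_mod_cast ha.1
  have hb1 : (N : ℝ) ≤ b := by exact_mod_cast hb.1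
  have hc1 : (N : ℝ) ≤ c := by exact_mod_cast hc.1
  have hd1 : (N : ℝ) ≤ d := by exact_mod_cast hd.1
  have ha2 : (a : ℝ) ≤ 2 * N := by exact_mod_cast ha.2
  have hb2 : (b : ℝ) ≤ 2 * N := by exact_mod_cast hb.2
  have hc2 : (c : ℝ) ≤ 2 * N := by exact_mod_cast hc.2
  have hd2 : (d : ℝ) ≤ 2 * N := by exact_mod_cast hd.2
  have e1 : Real.log a + Real.log b = Real.log (a * b) :=
    (Real.log_mul (by linarith) (by linarith)).symm
  have e2 : Real.log c + Real.log d = Real.log (c * d) :=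
    (Real.log_mul (by linarith) (by linarith)).symm
  rw [e1, e2]
  have hab1 : (N : ℝ) ^ 2 ≤ a * b := by nlinarith
  have hcd1 : (N : ℝ) ^ 2 ≤ c * d := by nlinarith
  have hab2 : (a : ℝ) * b ≤ 4 * N ^ 2 := by nlinarith
  have hcd2 : (c : ℝ) * d ≤ 4 * N ^ 2 := by nlinarith
  have hN2 : (0 : ℝ) < N ^ 2 := by positivity
  unfold F
  split_ifs with h
  · exact geom_triv T _
  · have key : ∀ x y : ℝ, (N : ℝ) ^ 2 ≤ y → y ≤ x → x ≤ 4 * N ^ 2 →
        (x - y) / (4 * N ^ 2) ≤ Real.log x - Real.log y ∧ Real.log x - Real.log y ≤ 3 := by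
      intro x y h1 h2 h3
      refine ⟨log_diff x y _ (by linarith) h2 h3, ?_⟩
      rw [← Real.log_div (by linarith) (by linarith)]
      have : Real.log (x / y) ≤ x / y - 1 := Real.log_le_sub_one_of_pos (by
        have : 0 < y := by linarith
        have : 0 < x := by linarith
        positivity)
      have h4 : x / y ≤ 4 := by
        rw [div_le_iff₀ (by linarith)]; nlinarith
      linarith
    set θ := Real.log (a * b) - Real.log (c * d) with hθ
    have hne : (a : ℝ) * b ≠ c * d := by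
      intro hcon
      apply h
      have : (a : ℤ) * b = c * d := by exact_mod_cast hcon
      omega
    have hboth : |(a : ℝ) * b - c * d| / (4 * N ^ 2) ≤ |θ| ∧ |θ| ≤ 3 := by
      rcases le_total ((c : ℝ) * d) (a * b) with hle | hle
      · obtain ⟨k1, k2⟩ := key _ _ hcd1 hle hab2
        have : 0 ≤ θ := le_trans (by apply div_nonneg <;> linarith) k1
        rw [abs_of_nonneg this, abs_of_nonneg (by linarith)]
        exact ⟨k1, k2⟩
      · obtain ⟨k1, k2⟩ := key _ _ hab1 hle hcd2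
        have : θ ≤ 0 := by
          have : 0 ≤ Real.log (c * d) - Real.log (a * b) :=
            le_trans (by apply div_nonneg <;> linarith) k1
          rw [hθ]; linarith
        rw [abs_of_nonpos this, abs_of_nonpos (by linarith)]
        refine ⟨?_, ?_⟩
        · calc _ = ((c : ℝ) * d - a * b) / (4 * N ^ 2) := by ring
            _ ≤ _ := k1
            _ = -θ := by rw [hθ]; ring
        · rw [hθ]; linarith
    have habs : 0 < |(a : ℝ) * b - c * d| := abs_pos.mpr (sub_ne_zero.mpr hne)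
    have hθpos : 0 < |θ| := lt_of_lt_of_le (by positivity) hboth.1
    refine (geom_bound T θ (abs_pos.mp hθpos) (hboth.2.trans Real.pi_gt_three.le)).trans ?_
    push_cast
    rw [div_le_iff₀ hθpos]
    have hp := Real.pi_pos
    calc Real.pi = 4 * Real.pi * N ^ 2 * |(a : ℝ) * b - c * d|⁻¹ *
          (|(a : ℝ) * b - c * d| / (4 * N ^ 2)) := by field_simp
      _ ≤ _ := mul_le_mul_of_nonneg_left hboth.1 (by positivity)

/-- the fourth moment on average over the twist -/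
theorem fourth (N T : ℕ) (hN : 1 ≤ N) (b : ℕ → ℂ) (hb : ∀ n, ‖b n‖ ≤ 1) (β0 δ : ℝ) (hδ : 0 ≤ δ) :
    ∫ β in β0..(β0 + δ), ∑ t ∈ Icc 1 T, ‖DT N b β t‖ ^ 4 ≤
      δ * (2 * N * (6 * N * T + (4 * Real.pi * N ^ 2) * hs (5 * N ^ 2) ^ 2)) +
      (3 * N * T + 9 * N * (4 * Real.pi * N ^ 2)) * hs (5 * N ^ 2) ^ 3 := by
  classical
  set P := Icc N (2 * N) ×ˢ Icc N (2 * N) with hP
  have e : ∀ (β : ℝ) (t : ℕ), ‖DT N b β t‖ ^ 4 = ‖∑ p ∈ P, (b p.1 * b p.2) *
      exp (I * ((2 * Real.pi * β * ((p.1 + p.2 : ℤ) : ℝ) + t * (Real.log p.1 + Real.log p.2) : ℝ) : ℂ))‖ ^ 2 := by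
    intro β t
    have : DT N b β t ^ 2 = ∑ p ∈ P, (b p.1 * b p.2) *
      exp (I * ((2 * Real.pi * β * ((p.1 + p.2 : ℤ) : ℝ) + t * (Real.log p.1 + Real.log p.2) : ℝ) : ℂ)) := by
      rw [pow_two, DT, sum_mul_sum, hP, sum_product]
      refine sum_congr rfl fun m _ => sum_congr rfl fun n _ => ?_
      simp only
      have : exp (I * ((2 * Real.pi * β * ((m + n : ℤ) : ℝ) + t * (Real.log m + Real.log n) : ℝ) : ℂ)) =
          exp (I * ((2 * Real.pi * β * m + t * Real.log m : ℝ) : ℂ)) *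
          exp (I * ((2 * Real.pi * β * n + t * Real.log n : ℝ) : ℂ)) := by
        rw [← Complex.exp_add]; congr 1; push_cast; ring
      rw [this]
      ring
    rw [← this, norm_pow, ← pow_mul]
  simp only [e]
  have m := mean_sq P (fun p => b p.1 * b p.2) (fun p _ => by
    rw [norm_mul]
    calc ‖b p.1‖ * ‖b p.2‖ ≤ 1 * 1 := mul_le_mul (hb _) (hb _) (norm_nonneg _) (by norm_num)
      _ = 1 := one_mul 1) (fun p => (p.1 + p.2 : ℤ)) (fun p => Real.log p.1 + Real.log p.2) T β0 δ hδ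
    (fun p q => F T (4 * Real.pi * N ^ 2) ((p.1 : ℤ) * p.2 - q.1 * q.2)) (by
      intro p hp q hq
      rw [hP, mem_product] at hp hq
      exact geom_F N T p.1 p.2 q.1 q.2 hN hp.1 hp.2 hq.1 hq.2)
  refine m.trans ?_
  have hquad := quad (N : ℤ) δ T (4 * Real.pi * N ^ 2) hδ (by positivity) (by positivity)
    (by exact_mod_cast hN)
  refine le_trans ?_ (hquad.trans (le_of_eq (by push_cast; ring)))
  rw [← sum_product']
  refine sum_le_inj _ _ (fun u : (ℕ × ℕ) × (ℕ × ℕ) => (((u.1.1 : ℤ), (u.1.2 : ℤ)),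
    ((u.2.1 : ℤ), (u.2.2 : ℤ)))) _ _ ?_ ?_ ?_
    (fun v _ => mul_nonneg (w_nonneg hδ _) (F_nonneg (by positivity) (by positivity) _))
  · rintro ⟨⟨a, b⟩, c, d⟩ _ ⟨⟨a', b'⟩, c', d'⟩ _ h
    simp only [Prod.mk.injEq, Nat.cast_inj] at h ⊢
    exact h
  · rintro ⟨⟨a, b⟩, c, d⟩ h
    simp only [hP, mem_product, mem_Icc] at h ⊢
    omega
  · rintro ⟨⟨a, b⟩, c, d⟩ _
    refine le_of_eq ?_
    simp only
    congr 2
    ring

end Pool.Agent.U623.TW
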